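import Mathlib

/-! Truncated multiple zeta sums. -/

namespace Pool.Agent.Lib.MP_12eca1_ag

/-- `zetaLt [k₁, …, k_d] N` is the sum of `1 / (m₁ ^ k₁ ⋯ m_d ^ k_d)` over the integers
`N > m₁ > ⋯ > m_d > 0`; it is `1` for the empty index. -/
noncomputable def zetaLt : List ℕ → ℕ → ℝ
  | [], _ => 1
  | a :: k, N => ∑ m ∈ Finset.Ico 1 N, zetaLt k m / (m : ℝ) ^ a

end Pool.Agent.Lib.MP_12eca1_ag
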