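import Pool.Agent.Lib.MP_dda4e9_nt.LbH

-- part Pool.Agent.Lib.MP_12eca1_ag.Z.Root
section

/-! The unipotent connection on the tree of words with two singular points `a`, `b`, and the
differential system of the moment series of `Li_v (1 - t) Li_w (t)`. -/

namespace Pool.Agent.Lib.MP_12eca1_ag.MZ

open Polynomial Finset Pool.Agent.Lib.MP_dda4e9_nt.LB

variable (a b : ℂ)

/-- the common denominator -/
noncomputable def T2 : ℂ[X] := X * (X - 1)

/-- the denominator times the first letter of the word `v` -/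
noncomputable def Tl (v : ℕ) : ℂ[X] :=
  if v = 0 then 0 else if v % 2 = 0 then X - C b else -(X - C a)

/-- the connection -/
noncomputable def D2 (A : ℕ → ℂ[X]) (u : ℕ) : ℂ[X] :=
  T2 * derivative (A u) + (Tl a b (2 * u) * A (2 * u) + Tl a b (2 * u + 1) * A (2 * u + 1))

variable {a b}

theorem D2_supp {A : ℕ → ℂ[X]} {H : ℕ} (h : ∀ u, H ≤ u → A u = 0) (u : ℕ) (hu : H ≤ u) :
    D2 a b A u = 0 := by
  simp [D2, h u hu, h (2 * u) (by omega), h (2 * u + 1) (by omega)]

theorem T2_ne : T2 ≠ 0 := mul_ne_zero X_ne_zero (by simpa using X_sub_C_ne_zero (1 : ℂ))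

theorem root_mem2 (hab : a ≠ b) (hT : T2 = (X - C a) * (X - C b))
    (P : Submodule ℂ[X] (ℕ → ℂ[X])) (hD : ∀ A ∈ P, D2 a b A ∈ P) (H : ℕ) :
    ∀ A ∈ P, A ≠ 0 → (∀ u, H ≤ u → A u = 0) → ∃ p ≠ 0, Pi.single 0 p ∈ P := by
  induction H with
  | zero => exact fun A _ h hs => absurd (funext fun u => hs u u.zero_le) h
  | succ H ih =>
    intro A hA hne hs
    have top : ∀ u, H < 2 * u ∨ u = 0 → H ≤ 2 * u → D2 a b A u = T2 * derivative (A u) := by
      rintro u (h | rfl) h'
      · simp [D2, hs (2 * u) h, hs (2 * u + 1) (by omega)]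
      · simp [D2, Tl, hs 1 (by omega)]
    by_cases ha : A H = 0
    · exact ih A hA hne fun u hu => by
        rcases hu.eq_or_lt with rfl | hu
        exacts [ha, hs u hu]
    by_cases h2 : A H • D2 a b A - (T2 * derivative (A H)) • A = 0
    swap
    · refine ih _ (P.sub_mem (P.smul_mem _ (hD A hA)) (P.smul_mem _ hA)) h2 fun u hu => ?_
      rcases hu.eq_or_lt with rfl | hu
      · simp only [Pi.sub_apply, Pi.smul_apply, smul_eq_mul]
        rw [top H (by omega) (by omega)]
        ring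
      · simp [D2_supp hs u hu, hs u hu]
    have h3 : ∀ u, A H * D2 a b A u = T2 * derivative (A H) * A u :=
      fun u => sub_eq_zero.1 (congrFun h2 u)
    rcases Nat.eq_zero_or_pos H with rfl | hH
    · refine ⟨A 0, ha, ?_⟩
      convert hA
      ext1 u
      cases u with
      | zero => simp
      | succ u => simp [hs (u + 1) (by omega)]
    exfalso
    have e0 : a - b ≠ 0 := sub_ne_zero.2 hab
    have e1 : b - a ≠ 0 := sub_ne_zero.2 hab.symm
    rcases Nat.even_or_odd' H with ⟨p, rfl | rfl⟩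
    · have h4 := h3 p
      have h5 := resid a (S := X - C b) (p := A p) (q := -(X - C b)) ha
        (by simpa using e0) (by
          simp only [D2, Tl, hT, hH.ne', if_false, Nat.mul_mod_right, if_true,
            hs (2 * p + 1) le_rfl] at h4
          linear_combination h4)
      simp [e1] at h5
    · obtain ⟨c, hc⟩ : ∃ c : ℂ, Tl a b (2 * p) * A (2 * p) = C c * (X - C b) * A (2 * p + 1) := by
        rcases Nat.eq_zero_or_pos p with rfl | hp
        · exact ⟨0, by simp [Tl]⟩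
        · have h4 := h3 (2 * p)
          rw [top _ (by omega) (by omega)] at h4
          obtain ⟨c, hc⟩ := propor (b := A (2 * p)) ha
            (mul_left_cancel₀ T2_ne (by linear_combination h4))
          refine ⟨c, ?_⟩
          rw [hc, Tl, if_neg (by omega), if_pos (by omega)]
          ring
      have h4 := h3 p
      have h5 := resid b (S := X - C a) (p := A p)
        (q := (X - C a) - C c * (X - C b)) ha (by simpa using e1) (by
          rw [D2, hc, Tl, if_neg (by omega), if_neg (by omega), hT] at h4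
          linear_combination h4)
      simp [e1] at h5

theorem T2_01 : T2 = (X - C 0) * (X - C 1) := by simp [T2]

theorem T2_10 : T2 = (X - C 1) * (X - C 0) := by simp [T2, mul_comm]

/-- a number with the other parity -/
def sw (v : ℕ) : ℕ := if v = 0 then 0 else v + 1

/-- the recursion for the moments -/
def RecZ (c : ℕ → ℕ → ℂ) (m : ℕ → ℕ → ℕ → ℂ) : Prop :=
  ∀ j v w : ℕ, ((j : ℂ) + 1) * m j v w = c v w +
    lam (sw v) j 0 (fun i => m i (v / 2) w) - lam w j 0 fun i => m i v (w / 2)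

theorem ser_lam2 (v : ℕ) (m : ℕ → ℂ) :
    ph (X - 1) * ser (fun j => lam v j 0 m) = ph (Tl 0 1 v) * ser m := by
  unfold lam Tl
  by_cases h0 : v = 0
  · simp [h0, ser_zero]
  by_cases h1 : v % 2 = 0
  · simp [h0, h1]
  simp only [h0, h1, if_false]
  have e1 : ph (X - 1) * ser (fun j => ∑ i ∈ range (j + 1), m i) = ph X * ser m := by
    rw [map_sub, sub_mul, ser_shift, ser_shift, map_one, one_mul, add_sub_assoc, ← ser_sub]
    simp [sum_range_succ]
  rw [ser_sub, ser_zero]
  simp only [map_neg, map_zero, sub_zero]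
  linear_combination -e1

theorem Tl_sw (v : ℕ) : Tl 0 1 (sw v) = -Tl 1 0 v := by
  unfold Tl sw
  by_cases h0 : v = 0
  · simp [h0]
  by_cases h1 : v % 2 = 0
  · simp [h0, h1, show (v + 1) % 2 ≠ 0 by omega]
  · simp [h0, h1, show (v + 1) % 2 = 0 by omega]

theorem RecZ.ode {c : ℕ → ℕ → ℂ} {m : ℕ → ℕ → ℕ → ℂ} (h : RecZ c m) (v w : ℕ) :
    ph (X - 1) * eu (ser fun j => m j v w) =
      ph (Tl 1 0 v) * ser (fun j => m j (v / 2) w) +
        ph (Tl 0 1 w) * ser (fun j => m j v (w / 2)) + ph (-C (c v w)) := by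
  have e : (fun j : ℕ => -((j : ℂ) + 1) * m j v w) = fun j =>
      ((lam w j 0 fun i => m i v (w / 2)) - lam (sw v) j 0 (fun i => m i (v / 2) w)) -
        c v w * 1 ^ (j + 1) :=
    funext fun j => by rw [one_pow]; linear_combination -h j v w
  have e2 := ser_geo 1
  rw [eu_ser, e, ser_sub, ser_sub, mul_sub, mul_sub, ser_lam2, ser_lam2, ser_mul, Tl_sw]
  simp only [map_neg, map_one] at e2 ⊢
  linear_combination -ph (C (c v w)) * e2

theorem RecZ.map {c : ℕ → ℕ → ℂ} {m : ℕ → ℕ → ℕ → ℂ} (h : RecZ c m) (Λ : ℂ →ₗ[ℚ] ℂ) :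
    RecZ (fun v w => Λ (c v w)) fun j v w => Λ (m j v w) := fun j v w => by
  have h2 : ∀ u m', Λ (lam u j 0 m') = lam u j 0 fun i => Λ (m' i) := fun u m' => by
    unfold lam
    split_ifs <;> simp
  have h3 := map_nsmul Λ (j + 1) (m j v w)
  simp only [nsmul_eq_mul, Nat.cast_add, Nat.cast_one] at h3
  rw [← h3, h j v w, map_sub, map_add, h2, h2]

/-- iterated differences: the moments of `(1 - t) ^ j t ^ i` -/
noncomputable def df (c : ℕ → ℂ) : ℕ → ℕ → ℂ
  | 0, i => c i
  | j + 1, i => df c j i - df c j (i + 1)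

theorem df_map (Λ : ℂ →ₗ[ℚ] ℂ) (c : ℕ → ℂ) (j : ℕ) :
    ∀ i, Λ (df c j i) = df (fun i => Λ (c i)) j i := by
  induction j with
  | zero => exact fun i => rfl
  | succ j ih => exact fun i => by rw [df, df, map_sub, ih, ih]

theorem df_ser (c : ℕ → ℂ) (j : ℕ) :
    ∃ p, ph ((1 - X) ^ j) * ser c = ph p + ser (df c j) := by
  induction j with
  | zero => exact ⟨0, by simp; rfl⟩
  | succ j ih =>
    obtain ⟨p, hp⟩ := ih
    refine ⟨(1 - X) * p - C (df c j 0), ?_⟩
    have e : ser (df c (j + 1)) = ser (df c j) - ser fun i => df c j (i + 1) := by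
      rw [← ser_sub]; rfl
    have e2 := ser_shift (df c j)
    rw [e, pow_succ', map_mul, mul_assoc, hp]
    simp only [map_sub, map_mul, map_one]
    linear_combination -e2

section height

variable {ι : Type*} [Fintype ι] {θ : ι → ℂ}

theorem df_hg {c : ℕ → ℂ} {D : ℂ} {Q : ℝ} {L : ℕ} (h : ∀ i < L, Hg θ Q (D * c i)) (j : ℕ) :
    ∀ i, i + j < L → Hg θ (2 ^ j * Q) (D * df c j i) := by
  induction j with
  | zero => exact fun i hi => (h i hi).mono (by simp) rfl
  | succ j ih =>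
    exact fun i hi => ((ih i (by omega)).sub (ih (i + 1) (by omega))).mono
      (le_of_eq (by ring)) (by rw [df]; ring)

theorem integ2 {c : ℕ → ℕ → ℂ} {m : ℕ → ℕ → ℕ → ℂ} (h : RecZ c m) {H N L : ℕ}
    (hx : ∀ v < H, ∀ w < N, Hg θ 1 (c v w)) (s : ℕ) :
    ∀ v < H, ∀ w < N, v.size + w.size < s → ∀ j < L,
      Hg θ ((Nat.lcmUpto L * (2 * L + 3)) ^ s) (Nat.lcmUpto L ^ s * m j v w) := by
  induction s with
  | zero => intro v _ w _ h; omega
  | succ s ih =>
    intro v hv w hw hs j hj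
    obtain ⟨k, hk⟩ := dvd_lcm' j.succ_pos hj
    have hk1 : k ≤ Nat.lcmUpto L := Nat.le_of_dvd (Nat.lcmUpto_pos L) (Dvd.intro_left _ hk.symm)
    set d := Nat.lcmUpto L
    set K : ℝ := (d * (2 * L + 3)) ^ s with hK
    have h0 : 0 ≤ K := by positivity
    have h1 : ∀ z, Hg θ 1 z → Hg θ K (d ^ s * z) := fun z hz =>
      (hz.nmul (d ^ s)).mono (by
        rw [mul_one, Nat.cast_pow]
        exact pow_le_pow_left₀ d.cast_nonneg
          (le_mul_of_one_le_right d.cast_nonneg (by linarith [L.cast_nonneg (α := ℝ)])) s)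
        (by simp)
    have h2 : ∀ u (m' : ℕ → ℂ), (u ≠ 0 → ∀ i < L, Hg θ K (d ^ s * m' i)) →
        Hg θ (K + L * K) (d ^ s * lam u j 0 m') := fun u m' hm => by
      unfold lam
      split_ifs with hu
      · simpa using hg_zero (by positivity)
      · exact (hm hu j hj).mono (le_add_of_nonneg_right (by positivity)) rfl
      · refine ((hg_zero h0).sub (Hg.sum (s := range (j + 1)) fun i hi =>
          hm hu i ((mem_range.1 hi).trans_le hj))).mono ?_ (by simp [mul_sum])
        rw [card_range]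
        gcongr
        exact hj
    refine ((((h1 _ (hx v hv w hw)).add
      (h2 (sw v) (fun i => m i (v / 2) w) fun h0 i hi =>
        ih _ (by omega) _ hw (by
          have := size_half (u := v) (fun e => h0 (by simp [sw, e])); omega) i hi)).sub
      (h2 w (fun i => m i v (w / 2)) fun h0 i hi =>
        ih _ hv _ (by omega) (by have := size_half h0; omega) i hi)).nmul k).mono ?_ ?_
    · calc _ = k * ((2 * L + 3) * K) := by ring
        _ ≤ d * ((2 * L + 3) * K) := by gcongr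
        _ = _ := by rw [hK]; ring
    · have : (d : ℂ) = (j + 1) * k := by exact_mod_cast hk
      linear_combination (d : ℂ) ^ s * k * h j v w + (d : ℂ) ^ s * m j v w * this

end height

end Pool.Agent.Lib.MP_12eca1_ag.MZ
end

-- part Pool.Agent.Lib.MP_12eca1_ag.Z.Zero
section

/-! The zero estimate: the matrix of the moments of `Li_v (1 - t) Li_w (t)` has full rank. -/

namespace Pool.Agent.Lib.MP_12eca1_ag.MZ

open Polynomial Finset Matrix Pool.Agent.Lib.MP_dda4e9_nt.LB

variable (c : ℕ → ℕ → ℂ) (m : ℕ → ℕ → ℕ → ℂ) (H N : ℕ)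

/-- the connection on pairs -/
noncomputable def st2 (M : PP) : PP :=
  (D2 1 0 M.1, fun w => T2 * derivative (M.2 w) - Tl 0 1 w * M.2 (w / 2) -
    ∑ v ∈ range H, M.1 v * -C (c v w))

/-- the first component of the dual connection -/
noncomputable def du2 (a b : ℕ → ℂ[X]) (v : ℕ) : ℂ[X] :=
  T2 * derivative (a v) - Tl 1 0 v * a (v / 2) + ∑ w ∈ range N, -C (c v w) * b w

variable {c m H N}

theorem rm_st2 (h : RecZ c m) {M : PP} (hM : ∀ v, H ≤ v → M.1 v = 0) (w : ℕ) :
    rm m H (st2 c H M) w = ph (X - 1) * eu (rm m H M w) -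
      ph (Tl 0 1 w) * rm m H M (w / 2) := by
  have e1 := reindex (fun v u => ph (Tl 1 0 v * M.1 v) * ser fun j => m j u w) H
    fun v u hv => by simp [hM v hv]
  have e2 : ∀ v, ph (X - 1) * eu (ph (M.1 v) * ser fun j => m j v w) =
      ph (T2 * derivative (M.1 v)) * ser (fun j => m j v w) +
      ph (Tl 1 0 v * M.1 v) * ser (fun j => m j (v / 2) w) +
      ph (Tl 0 1 w) * (ph (M.1 v) * ser fun j => m j v (w / 2)) + ph (M.1 v * -C (c v w)) := by
    intro v
    rw [eu_mul, T2]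
    have := h.ode v w
    simp only [map_mul] at this ⊢
    linear_combination ph (M.1 v) * this
  rw [rm, rm, rm, eu_sub, eu_sum, eu_ph, mul_sub (ph _), mul_sub (ph _), mul_sum, mul_sum]
  simp only [e2, sum_add_distrib, e1]
  simp only [st2, D2, map_add, add_mul, map_sub, map_sum, sum_add_distrib]
  simp only [T2, map_mul, map_sub]
  ring

theorem pr_st2 {M : PP} (hM : ∀ v, H ≤ v → M.1 v = 0) (a : ℕ → ℂ[X]) {b : ℕ → ℂ[X]}
    (hb : ∀ w, N ≤ w → b w = 0) :
    T2 * derivative (pr H N M a b) =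
      pr H N (st2 c H M) a b + pr H N M (du2 c N a b) (D2 0 1 b) := by
  have e1 := reindex (fun v u => Tl 1 0 v * M.1 v * a u) H fun v u hv => by simp [hM v hv]
  have e2 := reindex (fun w u => Tl 0 1 w * b w * M.2 u) N fun v u hv => by simp [hb v hv]
  have e3 : ∑ w ∈ range N, (∑ v ∈ range H, M.1 v * -C (c v w)) * b w =
      ∑ v ∈ range H, M.1 v * ∑ w ∈ range N, -C (c v w) * b w := by
    simp only [sum_mul, mul_sum, mul_assoc]
    exact sum_comm
  have e4 : ∑ v ∈ range H, (D2 1 0 M.1 v * a v + M.1 v * du2 c N a b v) =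
      ∑ v ∈ range H, (T2 * derivative (M.1 v * a v) +
        (Tl 1 0 (2 * v) * M.1 (2 * v) * a v + Tl 1 0 (2 * v + 1) * M.1 (2 * v + 1) * a v) -
        Tl 1 0 v * M.1 v * a (v / 2) + M.1 v * ∑ w ∈ range N, -C (c v w) * b w) :=
    sum_congr rfl fun v _ => by simp only [D2, du2, derivative_mul]; ring
  have e5 : ∑ w ∈ range N, ((st2 c H M).2 w * b w + M.2 w * D2 0 1 b w) =
      ∑ w ∈ range N, (T2 * derivative (M.2 w * b w) +
        (Tl 0 1 (2 * w) * b (2 * w) * M.2 w + Tl 0 1 (2 * w + 1) * b (2 * w + 1) * M.2 w) -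
        Tl 0 1 w * b w * M.2 (w / 2) - (∑ v ∈ range H, M.1 v * -C (c v w)) * b w) :=
    sum_congr rfl fun v _ => by simp only [D2, st2, derivative_mul]; ring
  rw [sum_add_distrib, sum_add_distrib, sum_sub_distrib, sum_add_distrib, ← e1] at e4
  rw [sum_add_distrib, sum_sub_distrib, sum_sub_distrib, sum_add_distrib, ← e2, e3] at e5
  simp only [pr, map_add, map_sum, mul_add, mul_sum] at e4 e5 ⊢
  change _ = ∑ v ∈ range H, D2 1 0 M.1 v * a v + _ + _
  linear_combination -e4 - e5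

theorem deg_Tl (a b : ℂ) (v : ℕ) : (Tl a b v).natDegree ≤ 3 := by
  unfold Tl
  split_ifs
  · simp
  · exact le_trans (b := 1) (by compute_degree) (by norm_num)
  · exact le_trans (b := 1) (by compute_degree) (by norm_num)

theorem deg_D2 {a b : ℂ} {A : ℕ → ℂ[X]} {k : ℕ} (h : ∀ v, (A v).natDegree ≤ k) (v : ℕ) :
    (D2 a b A v).natDegree ≤ k + 3 := by
  have h1 : T2.natDegree ≤ 2 := by unfold T2; compute_degree
  have h2 : ∀ u, (Tl a b u * A u).natDegree ≤ k + 3 := fun u =>
    natDegree_mul_le.trans (by have := h u; have := deg_Tl a b u; omega)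
  refine natDegree_add_le_of_degree_le (natDegree_mul_le.trans ?_)
    (natDegree_add_le_of_degree_le (h2 _) (h2 _))
  have := natDegree_derivative_le (A v)
  have := h v
  omega

theorem ann2 (hx : c 0 0 ≠ 0) (hH : 0 < H) (hN : 0 < N) (M : ℕ → PP)
    (hM : ∀ k, M (k + 1) = st2 c H (M k)) (hs : ∀ k v, H ≤ v → (M k).1 v = 0)
    (hne : (M 0).1 ≠ 0) (a b : ℕ → ℂ[X]) (hb : ∀ w, N ≤ w → b w = 0)
    (hab : ∀ k, pr H N (M k) a b = 0) : b = 0 := by
  by_contra hb0
  -- a multiple of the root among the first components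
  obtain ⟨p, hp, hpm⟩ := root_mem2 one_ne_zero T2_10 (Submodule.span ℂ[X] (Set.range fun k => (M k).1))
    (fun A hA => by
      induction hA using Submodule.span_induction with
      | mem A hA =>
        obtain ⟨k, rfl⟩ := hA
        exact Submodule.subset_span ⟨k + 1, by simp only [hM, st2]⟩
      | zero =>
        convert Submodule.zero_mem _
        ext1 u; simp [D2]
      | add A B _ _ iA iB =>
        convert Submodule.add_mem _ iA iB
        ext1 u; simp only [D2, Pi.add_apply, map_add]; ring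
      | smul q A hA iA =>
        convert Submodule.add_mem _ (Submodule.smul_mem _ q iA)
          (Submodule.smul_mem _ (T2 * derivative q) hA)
        ext1 u; simp only [D2, Pi.add_apply, Pi.smul_apply, smul_eq_mul, derivative_mul]; ring)
    H _ (Submodule.subset_span ⟨0, rfl⟩) hne (hs 0)
  have key : ∀ a, (∀ k, pr H N (M k) a 0 = 0) → a 0 = 0 := fun a ha => by
    have : ∀ A ∈ Submodule.span ℂ[X] (Set.range fun k => (M k).1),
        ∑ v ∈ range H, A v * a v = 0 := fun A hA => by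
      induction hA using Submodule.span_induction with
      | mem A hA => obtain ⟨k, rfl⟩ := hA; simpa [pr] using ha k
      | zero => simp
      | add A B _ _ iA iB => simp [add_mul, sum_add_distrib, iA, iB]
      | smul q A _ iA => simp [mul_assoc, ← mul_sum, iA]
    have h2 := this _ hpm
    rw [sum_eq_single 0 (fun v _ hv => by simp [hv]) (by simp [hH.ne'])] at h2
    simpa [hp] using h2
  have lin : ∀ (k) (p q : ℂ[X]) (a a' b b' : ℕ → ℂ[X]), pr H N (M k) (p • a + q • a')
      (p • b + q • b') = p * pr H N (M k) a b + q * pr H N (M k) a' b' := by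
    intro k p q a a' b b'
    simp only [pr, Pi.add_apply, Pi.smul_apply, smul_eq_mul, mul_add, sum_add_distrib, mul_sum,
      mul_left_comm]
    ring
  have dual : ∀ a b, (∀ w, N ≤ w → b w = 0) → (∀ k, pr H N (M k) a b = 0) →
      ∀ k, pr H N (M k) (du2 c N a b) (D2 0 1 b) = 0 := fun a b hb h k => by
    have := pr_st2 (c := c) (hs k) a hb
    rw [← hM, h, h] at this
    simpa using this.symm
  let P : Submodule ℂ[X] (ℕ → ℂ[X]) :=
    { carrier := {b | (∀ w, N ≤ w → b w = 0) ∧ ∃ a, ∀ k, pr H N (M k) a b = 0}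
      add_mem' := by
        rintro b b' ⟨h1, a, h2⟩ ⟨h3, a', h4⟩
        exact ⟨fun w hw => by simp [h1 w hw, h3 w hw], a + a', fun k => by
          simpa [h2, h4] using lin k 1 1 a a' b b'⟩
      zero_mem' := ⟨fun _ _ => rfl, 0, fun k => by simp [pr]⟩
      smul_mem' := by
        rintro q b ⟨h1, a, h2⟩
        exact ⟨fun w hw => by simp [h1 w hw], q • a, fun k => by
          simpa [h2] using lin k q 0 a a b b⟩ }
  obtain ⟨q, hq, hq1, a, hq2⟩ := root_mem2 zero_ne_one T2_01 P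
    (fun b ⟨h1, a, h2⟩ => ⟨D2_supp h1, _, dual a b h1 h2⟩) N b ⟨hb, a, hab⟩ hb0 hb
  have h3 : q • D2 0 1 (Pi.single 0 q) + (-(T2 * derivative q)) • Pi.single 0 q =
      (0 : ℕ → ℂ[X]) := by
    ext1 u
    by_cases hu : u = 0
    · simp [hu, D2, Tl, mul_comm]
    · simp [hu, D2]
  have h4 := key (q • du2 c N a (Pi.single 0 q) + (-(T2 * derivative q)) • a) fun k => by
    rw [← h3, lin, dual a _ hq1 hq2, hq2]; simp
  simp only [Pi.add_apply, Pi.smul_apply, smul_eq_mul, du2] at h4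
  rw [sum_eq_single 0 (fun v _ hv => by simp [hv]) (by simp [hN.ne'])] at h4
  have h5 := resid 0 (S := X - 1) (p := a 0) (q := C (c 0 0)) hq (by simp) (by
      simp only [T2, Tl, if_true, Pi.single_eq_same] at h4
      simp only [map_zero, sub_zero]
      linear_combination h4)
  simp [hx] at h5

theorem zero_est2 (h : RecZ c m) (hx : c 0 0 ≠ 0) {n : ℕ} (hn : 40 * H ≤ n) :
    LinearIndependent ℂ fun (p : Fin H × Fin (n + 1)) (q : Fin (4 * H) × Fin (n + 1)) =>
      df (fun i => m i p.1 q.1) p.2 q.2 := by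
  classical
  rw [Fintype.linearIndependent_iff]
  intro g hg
  by_contra hg0
  push Not at hg0
  obtain ⟨⟨v0, j0⟩, hg0⟩ := hg0
  have hH : 0 < H := v0.pos
  let A : ℕ → ℂ[X] := fun v => if hv : v < H then
    ∑ j : Fin (n + 1), C (g (⟨v, hv⟩, j)) * (1 - X) ^ (j : ℕ) else 0
  have hA : A ≠ 0 := fun e => by
    have := congrArg (fun p : ℂ[X] => (p.comp (1 - X)).coeff j0) (congrFun e v0)
    simp [A, Fin.val_inj, Polynomial.sum_comp] at this
    exact hg0 this
  have hAd : ∀ v, (A v).natDegree ≤ n := fun v => by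
    simp only [A]
    split_ifs
    · refine natDegree_sum_le_of_forall_le _ _ fun j _ =>
        (natDegree_C_mul_le _ _).trans (natDegree_pow_le.trans ?_)
      have h1 : (1 - X : ℂ[X]).natDegree ≤ 1 := by compute_degree
      have := j.2
      nlinarith
    · simp
  have hB : ∀ w, ∃ b, w < 4 * H →
      Od (n + 2) (∑ v ∈ range H, ph (A v) * ser (fun j => m j v w) - ph b) := fun w => by
    choose b hb using fun (v : Fin H) (j : Fin (n + 1)) => df_ser (fun i => m i v w) j
    refine ⟨∑ v, ∑ j, C (g (v, j)) * b v j, fun hw => ?_⟩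
    have e : ∑ v ∈ range H, ph (A v) * ser (fun j => m j v w) =
        ph (∑ v, ∑ j, C (g (v, j)) * b v j) +
          ser fun i => ∑ v : Fin H, ∑ j : Fin (n + 1), g (v, j) * df (fun i => m i v w) j i := by
      rw [sum_range, ser_sum, map_sum, ← sum_add_distrib]
      refine sum_congr rfl fun v _ => ?_
      simp only [A, dif_pos v.2, map_sum, sum_mul, ser_sum, ← sum_add_distrib, ser_mul]
      exact sum_congr rfl fun j _ => by rw [map_mul, mul_assoc, hb, map_mul, mul_add]
    rw [e, add_sub_cancel_left]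
    refine (od_ser (e := n + 1) fun i hi => ?_).mono (by push_cast; omega)
    simpa [Finset.sum_apply, Fintype.sum_prod_type] using congrFun hg (⟨w, hw⟩, ⟨i, hi⟩)
  choose B hB using hB
  let M : ℕ → PP := fun k => (st2 c H)^[k] (A, B)
  have hM : ∀ k, M (k + 1) = st2 c H (M k) := fun k => Function.iterate_succ_apply' _ _ _
  have hs : ∀ k v, H ≤ v → (M k).1 v = 0 := fun k => by
    induction k with
    | zero => exact fun v hv => dif_neg (by omega)
    | succ k ih => rw [hM]; exact D2_supp ih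
  have hd : ∀ k v, ((M k).1 v).natDegree ≤ n + 3 * k := fun k => by
    induction k with
    | zero => exact hAd
    | succ k ih => rw [hM]; exact deg_D2 ih
  have ho : ∀ (k : ℕ) w, w < 4 * H → Od (n + 2 - 3 * k) (rm m H (M k) w) := fun k => by
    induction k with
    | zero => exact fun w hw => (hB w hw).mono (by simp)
    | succ k ih =>
      intro w hw
      rw [hM, rm_st2 h (hs k)]
      refine Od.sub (((od_ph (k := 3) ?_).mul (ih w hw).eu).mono ?_)
        (((od_ph (deg_Tl 0 1 w)).mul (ih _ (by omega))).mono ?_)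
      · exact le_trans (b := 1) (by compute_degree) (by norm_num)
      · push_cast; omega
      · push_cast; omega
  let ρ : ℕ → Fin H ⊕ Fin (4 * H) → ℂ[X] := fun k =>
    Sum.elim (fun v => (M k).1 v) fun w => (M k).2 w
  have hρ : ∀ k (c : Fin H ⊕ Fin (4 * H) → ℂ[X]), ∑ i, ρ k i * c i = pr H (4 * H) (M k)
      (fun v => if hv : v < H then c (.inl ⟨v, hv⟩) else 0)
      (fun w => if hw : w < 4 * H then c (.inr ⟨w, hw⟩) else 0) := fun k c => by
    simp [pr, ρ, Fintype.sum_sum_type, sum_range]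
  obtain ⟨j, hj, hj2⟩ : ∃ j ≤ 5 * H, ∀ a b, (∀ i < j, pr H (4 * H) (M i) a b = 0) →
      pr H (4 * H) (M j) a b = 0 := by
    have h2 : ¬ LinearIndependent ℂ[X] fun i : Fin (5 * H + 1) => ρ i := fun h2 => by
      have := h2.fintype_card_le_finrank
      simp at this
      omega
    rw [Fintype.not_linearIndependent_iff] at h2
    obtain ⟨c, hc, hc0⟩ := h2
    obtain ⟨j, hj1, hj2⟩ := exists_max_image (univ.filter fun i => c i ≠ 0) id
      (hc0.imp fun i hi => by simpa using hi)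
    refine ⟨j, Nat.le_of_lt_succ j.2, fun a b hab => ?_⟩
    have e : ∀ k, pr H (4 * H) (M k) a b =
        ∑ i, ρ k i * Sum.elim (fun v : Fin H => a v) (fun w : Fin (4 * H) => b w) i := fun k => by
      simp [pr, ρ, Fintype.sum_sum_type, sum_range]
    have e2 : ∑ i, c i * pr H (4 * H) (M i) a b = 0 := by
      simp only [e, mul_sum, ← mul_assoc]
      rw [sum_comm]
      refine sum_eq_zero fun l _ => ?_
      have := congrFun hc l
      simp only [Finset.sum_apply, Pi.smul_apply, smul_eq_mul, Pi.zero_apply] at this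
      rw [← sum_mul, this, zero_mul]
    rw [sum_eq_single j (fun i _ hi => ?_) (by simp)] at e2
    · exact (mul_eq_zero.1 e2).resolve_left (by simpa using hj1)
    · by_cases hci : c i = 0
      · rw [hci, zero_mul]
      · rw [hab i (lt_of_le_of_ne (hj2 i (by simpa using hci)) fun e => hi (Fin.ext e)), mul_zero]
  have hall : ∀ k a b, (∀ w, 4 * H ≤ w → b w = 0) → (∀ i < j, pr H (4 * H) (M i) a b = 0) →
      pr H (4 * H) (M k) a b = 0 := fun k => by
    induction k with
    | zero =>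
      intro a b _ hab
      rcases Nat.eq_zero_or_pos j with rfl | hj0
      exacts [hj2 a b hab, hab 0 hj0]
    | succ k ih =>
      intro a b hb hab
      have e := pr_st2 (c := c) (hs k) a hb
      rw [← hM, ih a b hb hab, ih _ _ (D2_supp hb) fun i hi => ?_] at e
      · simpa using e.symm
      · have e' := pr_st2 (c := c) (hs i) a hb
        rw [← hM, hab i hi, show pr H (4 * H) (M (i + 1)) a b = 0 from ?_] at e'
        · simpa using e'.symm
        · rcases (Nat.succ_le_of_lt hi).eq_or_lt with e | e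
          exacts [by rw [show i + 1 = j from e]; exact hj2 a b hab, hab _ e]
  obtain ⟨Q, I, p1, p2, p3, p4⟩ := greedy {r | ∃ i < j, r = ρ i}
  have hz : ∀ i ∈ I, ∀ w, Q.adjugate (.inr w) i = 0 := fun i hi w => by
    have := ann2 hx hH (by omega : 0 < 4 * H) M hM hs hA _ _
      (fun w hw => dif_neg (by omega)) fun k => hall k _ _ (fun w hw => dif_neg (by omega))
        fun l hl => (hρ l fun c => Q.adjugate c i).symm.trans
          ((det_updateRow_eq _ _ _).symm.trans (p4 i hi _ ⟨l, hl, rfl⟩))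
    simpa using congrFun this w
  have hI : I.card ≤ H := by
    have h2 : LinearIndependent ℂ[X] fun (i : I) (v : Fin H) => Q.adjugate (.inl v) i := by
      rw [Fintype.linearIndependent_iff]
      intro c hc i
      have e : Q.adjugate *ᵥ (fun i => if hi : i ∈ I then c ⟨i, hi⟩ else 0) = 0 := by
        ext1 l
        simp only [mulVec, dotProduct, Pi.zero_apply]
        rw [← sum_subset (subset_univ I) fun i _ hi => by simp [hi], ← sum_coe_sort]
        rcases l with v | w
        · simpa [Finset.sum_apply, mul_comm] using congrFun hc v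
        · exact sum_eq_zero fun i _ => by rw [hz i i.2, zero_mul]
      have e2 := congrFun (congrArg (fun z => Q *ᵥ z) e) i
      simpa [mulVec_mulVec, mul_adjugate, smul_mulVec, p1] using e2
    simpa using h2.fintype_card_le_finrank
  let U : Matrix (Fin H ⊕ Fin (4 * H)) (Fin H ⊕ Fin (4 * H)) LL :=
    fromBlocks 1 (Matrix.of fun v w => ser fun j => m j v w) 0 (-1)
  have h3 := od_det (ph.mapMatrix Q * U)
    (fun i => -(15 * H) - if i ∈ I then (n + 2 : ℤ) else 0)
    (Sum.elim (fun _ => -n) fun _ => n + 2) fun i l => by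
      by_cases hi : i ∈ I
      · have : (ph.mapMatrix Q * U) i l = U i l := by
          simp [Matrix.mul_apply, p2 i hi, Pi.single_apply, apply_ite ph]
        rw [this, if_pos hi]
        refine Od.mono (e := 0) ?_ (by rcases l with v | w <;> simp <;> omega)
        rcases i with v' | w' <;> rcases l with v | w
        · simp only [U, fromBlocks_apply₁₁, Matrix.one_apply]
          split_ifs
          exacts [od_one, od_zero _]
        · exact (od_ser (e := 0) (c := fun j => m j v' w) fun j hj =>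
            absurd hj j.not_lt_zero).mono (by simp)
        · exact od_zero _
        · simp only [U, fromBlocks_apply₂₂, Matrix.neg_apply, Matrix.one_apply]
          split_ifs
          exacts [od_one.neg, (od_zero _).neg]
      · obtain ⟨k, hk, e⟩ := p3 i hi
        rw [if_neg hi]
        rcases l with v | w
        · have : (ph.mapMatrix Q * U) i (.inl v) = ph ((M k).1 v) := by
            simp [Matrix.mul_apply, Fintype.sum_sum_type, U, e, ρ, Matrix.one_apply]
          rw [this]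
          exact (od_ph (hd k v)).mono (by simp; omega)
        · have : (ph.mapMatrix Q * U) i (.inr w) = rm m H (M k) w := by
            simp [Matrix.mul_apply, Fintype.sum_sum_type, U, e, ρ, Matrix.one_apply, rm,
              sum_range, sub_eq_add_neg, apply_ite (fun z : LL => -z)]
            ring
          rw [this]
          exact (ho k w w.2).mono (by simp; omega)
  have h4 : U.det = 1 := by
    simp [U, det_fromBlocks_zero₂₁, det_neg, pow_mul, show (-1 : LL) ^ 4 = 1 by norm_num]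
  rw [det_mul, h4, mul_one, ← RingHom.map_det] at h3
  refine p1 (eq_zero_of_od (h3.mono ?_))
  simp only [sum_sub_distrib, sum_const, card_univ, Fintype.card_sum, Fintype.card_fin,
    Fintype.sum_sum_type, Sum.elim_inl, Sum.elim_inr, sum_ite_mem, univ_inter, nsmul_eq_mul]
  have h5 : (I.card : ℤ) ≤ H := by exact_mod_cast hI
  have h6 : (40 * H : ℤ) ≤ n := by exact_mod_cast hn
  have h7 : (1 : ℤ) ≤ H := by exact_mod_cast hH
  push_cast
  nlinarith

end Pool.Agent.Lib.MP_12eca1_ag.MZ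
end

-- part Pool.Agent.Lib.MP_12eca1_ag.Z.Ana
section

/-! Improper integrals over `(0, 1)` of products of polylogarithms in `1 - t` and in `t`. -/

namespace Pool.Agent.Lib.MP_12eca1_ag.MZ

open Set Filter Topology Pool.Agent.Lib.MP_dda4e9_nt Pool.Agent.Lib.MP_dda4e9_nt.LB

/-- the open unit interval -/
abbrev II : Set ℝ := Ioo 0 1

theorem ev0 : ∀ᶠ t in 𝓝[>] (0 : ℝ), t ∈ II := Ioo_mem_nhdsGT one_pos

theorem ev1 : ∀ᶠ t in 𝓝[<] (1 : ℝ), t ∈ II := Ioo_mem_nhdsLT one_pos

theorem fence {G f : ℝ → ℂ} {B B' : ℝ → ℝ} (hG : ∀ t ∈ II, HasDerivAt G (f t) t)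
    (hB : ∀ t ∈ II, HasDerivAt B (B' t) t) (h : ∀ t ∈ II, ‖f t‖ ≤ B' t) {a : ℂ} {b : ℝ}
    (ha : Tendsto G (𝓝[>] 0) (𝓝 a)) (hb : Tendsto B (𝓝[>] 0) (𝓝 b)) {t : ℝ} (ht : t ∈ II) :
    ‖G t - a‖ ≤ B t - b := by
  refine le_of_tendsto_of_tendsto (tendsto_const_nhds.sub ha).norm (tendsto_const_nhds.sub hb) ?_
  filter_upwards [Ioo_mem_nhdsGT ht.1] with s hs
  have hI : ∀ x ∈ Icc s t, x ∈ II := fun x hx => ⟨hs.1.trans_le hx.1, hx.2.trans_lt ht.2⟩
  exact image_norm_le_of_norm_deriv_right_le_deriv_boundary' (f := fun x => G x - G s)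
    (B := fun x => B x - B s) (f' := f) (B' := B')
    (fun x hx => ((hG x (hI x hx)).sub_const _).continuousAt.continuousWithinAt)
    (fun x hx => ((hG x (hI x (Ico_subset_Icc_self hx))).sub_const _).hasDerivWithinAt) (by simp)
    (fun x hx => ((hB x (hI x hx)).sub_const _).continuousAt.continuousWithinAt)
    (fun x hx => ((hB x (hI x (Ico_subset_Icc_self hx))).sub_const _).hasDerivWithinAt)
    (fun x hx => h x (hI x (Ico_subset_Icc_self hx))) ⟨hs.2.le, le_rfl⟩

/-- `x` is the improper integral of `f` over `(0, 1)` -/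
def Pr (f : ℝ → ℂ) (x : ℂ) : Prop :=
  ∃ (G : ℝ → ℂ) (a : ℂ), (∀ t ∈ II, HasDerivAt G (f t) t) ∧ Tendsto G (𝓝[>] 0) (𝓝 a) ∧
    Tendsto G (𝓝[<] 1) (𝓝 (a + x))

section pr

variable {f f' : ℝ → ℂ} {x x' : ℂ}

theorem Pr.congr (h : Pr f x) (e : ∀ t ∈ II, f' t = f t) (e' : x' = x) : Pr f' x' := by
  obtain ⟨G, a, h1, h2, h3⟩ := h
  exact ⟨G, a, fun t ht => e t ht ▸ h1 t ht, h2, e' ▸ h3⟩

theorem pr_zero : Pr (fun _ => 0) 0 :=
  ⟨fun _ => 0, 0, fun t _ => hasDerivAt_const t 0, tendsto_const_nhds, by simp⟩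

theorem Pr.add (h : Pr f x) (h' : Pr f' x') : Pr (fun t => f t + f' t) (x + x') := by
  obtain ⟨G, a, h1, h2, h3⟩ := h
  obtain ⟨G', a', h4, h5, h6⟩ := h'
  exact ⟨fun t => G t + G' t, a + a', fun t ht => (h1 t ht).add (h4 t ht), h2.add h5,
    by simpa [add_add_add_comm] using h3.add h6⟩

theorem Pr.cmul (h : Pr f x) (c : ℂ) : Pr (fun t => c * f t) (c * x) := by
  obtain ⟨G, a, h1, h2, h3⟩ := h
  exact ⟨fun t => c * G t, c * a, fun t ht => (h1 t ht).const_mul c, h2.const_mul c,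
    by simpa [mul_add] using h3.const_mul c⟩

theorem Pr.sub (h : Pr f x) (h' : Pr f' x') : Pr (fun t => f t - f' t) (x - x') :=
  (h.add (h'.cmul (-1))).congr (fun t _ => by ring) (by ring)

theorem Pr.sum {ι : Type*} (s : Finset ι) {f : ι → ℝ → ℂ} {x : ι → ℂ} (h : ∀ i, Pr (f i) (x i)) :
    Pr (fun t => ∑ i ∈ s, f i t) (∑ i ∈ s, x i) := by
  classical
  induction s using Finset.induction_on with
  | empty => simpa using pr_zero
  | insert a s ha ih => simpa [Finset.sum_insert ha] using (h a).add ih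

theorem sq_der {t : ℝ} (ht : t ∈ II) : HasDerivAt (fun t => √(1 - t)) (-1 / (2 * √(1 - t))) t :=
  ((hasDerivAt_id t).const_sub 1).sqrt (sub_pos.2 ht.2).ne'

theorem sq_lim : Tendsto (fun t : ℝ => √(1 - t)) (𝓝[>] 0) (𝓝 1) := by
  have : Continuous fun t : ℝ => √(1 - t) := by fun_prop
  simpa using (this.tendsto 0).mono_left nhdsWithin_le_nhds

theorem Pr.bound (h : Pr f x) {ε : ℝ} (hε : 0 ≤ ε)
    (hf : ∀ t ∈ II, ‖f t‖ ≤ ε * (1 / √t + 1 / √(1 - t))) : ‖x‖ ≤ 4 * ε := by
  obtain ⟨G, a, h1, h2, h3⟩ := h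
  have h4 : Tendsto (fun t : ℝ => 2 * ε * (√t - √(1 - t))) (𝓝[>] 0) (𝓝 (2 * ε * (0 - 1))) := by
    refine (Tendsto.sub ?_ sq_lim).const_mul _
    simpa using (Real.continuous_sqrt.tendsto 0).mono_left nhdsWithin_le_nhds
  have h5 := (h3.sub_const a).norm
  rw [add_sub_cancel_left] at h5
  refine le_of_tendsto h5 (ev1.mono fun t ht => ?_)
  refine (fence h1 (fun t ht => ?_) hf h2 h4 ht).trans ?_
  · exact (((Real.hasDerivAt_sqrt ht.1.ne').sub (sq_der ht)).const_mul (2 * ε)).congr_deriv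
      (by ring)
  · have := Real.sqrt_le_one.2 ht.2.le
    have := Real.sqrt_nonneg (1 - t)
    nlinarith

theorem Pr.uniq (h : Pr f x) (h' : Pr f x') : x = x' := by
  have := (h.sub h').bound le_rfl fun t _ => by simp
  simpa [sub_eq_zero] using this

end pr

/-- the polylogarithms on the real line -/
noncomputable def gg (u : ℕ) (t : ℝ) : ℂ := ff u t

theorem mem_Om {t : ℝ} (h0 : 0 ≤ t) (h1 : t < 1) : (t : ℂ) ∈ Om :=
  ball_sub (by simpa [abs_of_nonneg h0] using h1)

theorem ne0 {t : ℝ} (ht : t ∈ II) : (t : ℂ) ≠ 0 := by exact_mod_cast ht.1.ne'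

theorem ne1 {t : ℝ} (ht : t ∈ II) : (1 - t : ℂ) ≠ 0 := by exact_mod_cast (sub_pos.2 ht.2).ne'

theorem II_sub {t : ℝ} (ht : t ∈ II) : 1 - t ∈ II := ⟨sub_pos.2 ht.2, sub_lt_self _ ht.1⟩

theorem gg_der (u : ℕ) {t : ℝ} (ht : t ∈ II) :
    HasDerivAt (gg u) (kap u t * gg (u / 2) t / (t * (1 - t))) t := by
  obtain ⟨D, h1, h2⟩ := ff_der u t (mem_Om ht.1.le ht.2)
  refine h1.comp_ofReal.congr_deriv ?_
  rw [eq_div_iff (mul_ne_zero (ne0 ht) (ne1 ht)), mul_comm, h2, gg]

theorem gg_nil (t : ℝ) : gg 0 t = 1 := by simp [gg, ff_nil]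

theorem gg_lim {u : ℕ} (h : u ≠ 0) : Tendsto (gg u) (𝓝[>] 0) (𝓝 0) := by
  have h1 := (ff_diff u).continuousOn.continuousAt (Metric.isOpen_ball.mem_nhds Om_zero)
  have h2 : Tendsto (gg u) (𝓝 0) (𝓝 (ff u 0)) :=
    h1.tendsto.comp (by simpa using Complex.continuous_ofReal.tendsto 0)
  rw [ff_zero h] at h2
  exact h2.mono_left nhdsWithin_le_nhds

theorem kap_even {u : ℕ} (h : u ≠ 0) (h2 : u % 2 = 0) (z : ℂ) : kap u z = 1 - z := by
  simp [kap, h, h2]

theorem kap_odd {u : ℕ} (h2 : u % 2 ≠ 0) (z : ℂ) : kap u z = z := by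
  rw [kap, if_neg (by omega), if_neg h2]

theorem norm_even {u : ℕ} (h : u ≠ 0) (h2 : u % 2 = 0) {t C : ℝ} (ht : t ∈ II)
    (hC : ‖gg (u / 2) t‖ ≤ C * t / √(1 - t)) :
    ‖kap u t * gg (u / 2) t / (t * (1 - t))‖ ≤ C / √(1 - t) := by
  have e : kap u t * gg (u / 2) t / (t * (1 - t)) = gg (u / 2) t / t := by
    have := ne0 ht
    have := ne1 ht
    rw [kap_even h h2]
    field_simp
  rw [e, norm_div, Complex.norm_real, Real.norm_of_nonneg ht.1.le, div_le_iff₀ ht.1]
  exact hC.trans_eq (by ring)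

theorem gg_bound (u : ℕ) : ∃ C : ℝ, 0 ≤ C ∧ ∀ t ∈ II, ‖gg u t‖ ≤ C / √(1 - t) ∧
    (u ≠ 0 → ‖gg u t‖ ≤ C * t / √(1 - t)) := by
  induction u using Nat.strong_induction_on with
  | _ u ih =>
  have hs : ∀ t ∈ II, 0 < √(1 - t) ∧ √(1 - t) ≤ 1 ∧ √(1 - t) * √(1 - t) = 1 - t := fun t ht =>
    ⟨Real.sqrt_pos.2 (II_sub ht).1, Real.sqrt_le_one.2 (II_sub ht).2.le,
      Real.mul_self_sqrt (II_sub ht).1.le⟩
  by_cases h0 : u = 0
  · refine ⟨1, zero_le_one, fun t ht => ⟨?_, fun h => absurd h0 h⟩⟩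
    rw [h0, gg_nil, norm_one, le_div_iff₀ (hs t ht).1, one_mul]
    exact (hs t ht).2.1
  obtain ⟨C, hC, h1⟩ := ih (u / 2) (by omega)
  have h2 : ∀ t ∈ II, ‖gg u t‖ ≤ 2 * C * t / √(1 - t) := fun t ht => by
    have h3 := fence (fun t ht => gg_der u ht) (B := fun t => 2 * C * (√(1 - t))⁻¹)
      (B' := fun t => C / √(1 - t) / (1 - t)) (fun t ht => ?_) (fun t ht => ?_) (gg_lim h0)
      ((sq_lim.inv₀ one_ne_zero).const_mul _) ht
    · obtain ⟨p1, p2, p3⟩ := hs t ht
      rw [sub_zero] at h3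
      refine h3.trans ?_
      rw [le_div_iff₀ p1, sub_mul, mul_assoc, inv_mul_cancel₀ p1.ne', inv_one]
      nlinarith [mul_nonneg hC (mul_nonneg p1.le (sub_nonneg.2 p2))]
    · obtain ⟨p1, p2, p3⟩ := hs t ht
      refine (((sq_der ht).inv p1.ne').const_mul (2 * C)).congr_deriv ?_
      rw [sq, p3]
      field_simp
    · obtain ⟨p1, p2, p3⟩ := hs t ht
      by_cases h4 : u % 2 = 0
      · refine (norm_even h0 h4 ht ((h1 t ht).2 (by omega))).trans ?_
        rw [le_div_iff₀ (II_sub ht).1]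
        exact mul_le_of_le_one_right (by positivity) (II_sub ht).2.le
      · have e : kap u t * gg (u / 2) t / (t * (1 - t)) = gg (u / 2) t / (1 - t : ℝ) := by
          have := ne0 ht
          have := ne1 ht
          rw [kap_odd h4]
          push_cast
          field_simp
        rw [e, norm_div, Complex.norm_real, Real.norm_of_nonneg (II_sub ht).1.le]
        exact div_le_div_of_nonneg_right (h1 t ht).1 (II_sub ht).1.le
  refine ⟨2 * C, by positivity, fun t ht => ⟨(h2 t ht).trans ?_, fun _ => h2 t ht⟩⟩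
  exact div_le_div_of_nonneg_right (mul_le_of_le_one_right (by positivity) ht.2.le) (hs t ht).1.le

theorem gg_sum (u : ℕ) {t : ℝ} (ht : t ∈ II) :
    HasSum (fun r => ((co (idx u) r * t ^ r : ℝ) : ℂ)) (gg u t) := by
  simpa [cf, gg] using hasSum_cf u 0 (z := t) (by simpa [abs_of_pos ht.1] using ht.2)

theorem co_summable {u : ℕ} (h : u ≠ 0) (h2 : u % 2 = 0) : Summable (co (idx u)) := by
  obtain ⟨C, hC, h1⟩ := gg_bound (u / 2)
  refine summable_of_sum_range_le (c := 2 * C) (fun r => (co_bound _ r).1) fun N => ?_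
  have h3 : Continuous fun t : ℝ => ∑ r ∈ Finset.range N, co (idx u) r * t ^ r := by fun_prop
  have h4 := (h3.tendsto 1).mono_left (nhdsWithin_le_nhds (s := Iio 1))
  simp only [one_pow, mul_one] at h4
  refine le_of_tendsto h4 (ev1.mono fun t ht => ?_)
  have h5 := fence (fun t ht => gg_der u ht) (B := fun t => -(2 * C) * √(1 - t))
    (B' := fun t => C / √(1 - t)) (fun t ht => ((sq_der ht).const_mul (-(2 * C))).congr_deriv
      (by ring)) (fun t ht => norm_even h h2 ht ((h1 t ht).2 (by omega))) (gg_lim h)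
    (sq_lim.const_mul _) ht
  have h6 := Complex.hasSum_re (gg_sum u ht)
  simp only [Complex.ofReal_re] at h6
  have h7 := sum_le_hasSum (Finset.range N)
    (fun r _ => mul_nonneg (co_bound _ r).1 (pow_nonneg ht.1.le r)) h6
  rw [sub_zero] at h5
  have := Complex.re_le_norm (gg u t)
  nlinarith [mul_nonneg hC (Real.sqrt_nonneg (1 - t))]

/-- the multiple zeta value attached to a word -/
noncomputable def zv (u : ℕ) : ℂ := (∑' r, co (idx u) r : ℝ)

theorem gg_lim1 {u : ℕ} (h : u ≠ 0) (h2 : u % 2 = 0) : Tendsto (gg u) (𝓝[<] 1) (𝓝 (zv u)) := by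
  have h1 := tendsto_tsum_of_dominated_convergence (𝓕 := 𝓝[<] (1 : ℝ))
    (f := fun t r => co (idx u) r * t ^ r) (g := co (idx u)) (co_summable h h2)
    (fun r => by
      have h3 : Continuous fun t : ℝ => co (idx u) r * t ^ r := by fun_prop
      simpa using (h3.tendsto 1).mono_left nhdsWithin_le_nhds)
    (ev1.mono fun t ht r => by
      rw [Real.norm_of_nonneg (mul_nonneg (co_bound _ r).1 (pow_nonneg ht.1.le r))]
      exact mul_le_of_le_one_right (co_bound _ r).1 (pow_le_one₀ ht.1.le ht.2.le))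
  refine ((Complex.continuous_ofReal.tendsto _).comp h1).congr' (ev1.mono fun t ht => ?_)
  simp only [Function.comp, Complex.ofReal_tsum]
  exact (gg_sum u ht).tsum_eq

/-- the products -/
noncomputable def PP2 (v w : ℕ) (t : ℝ) : ℂ := gg v (1 - t) * gg w t

theorem kap_sw (v : ℕ) (z : ℂ) : kap v (1 - z) = kap (sw v) z := by
  unfold kap sw
  by_cases h0 : v = 0
  · simp [h0]
  by_cases h1 : v % 2 = 0
  · simp [h0, h1, show (v + 1) % 2 ≠ 0 by omega]
  · simp [h0, h1, show (v + 1) % 2 = 0 by omega]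

theorem PP2_der (v w : ℕ) {t : ℝ} (ht : t ∈ II) : HasDerivAt (PP2 v w)
    (kap w t * PP2 v (w / 2) t / (t * (1 - t)) -
      kap (sw v) t * PP2 (v / 2) w t / (t * (1 - t))) t := by
  refine (((gg_der v (II_sub ht)).scomp t ((hasDerivAt_id t).const_sub 1)).mul
    (gg_der w ht)).congr_deriv ?_
  simp only [PP2, ← kap_sw, Function.comp]
  push_cast
  simp only [sub_sub_cancel, neg_smul, one_smul]
  ring

theorem lim0 {F : ℝ → ℂ} {K : ℝ} (h : ∀ t ∈ II, ‖F t‖ ≤ K * t / (√t * √(1 - t))) :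
    Tendsto F (𝓝[>] 0) (𝓝 0) := by
  have h1 : Tendsto (fun t : ℝ => K * √t / √(1 - t)) (𝓝[>] 0) (𝓝 (K * 0 / 1)) := by
    refine (Tendsto.const_mul K ?_).div sq_lim one_ne_zero
    simpa using (Real.continuous_sqrt.tendsto 0).mono_left nhdsWithin_le_nhds
  refine squeeze_zero_norm' (ev0.mono fun t ht => (h t ht).trans_eq ?_) (by simpa using h1)
  have := Real.sqrt_pos.2 ht.1
  have := Real.sqrt_pos.2 (II_sub ht).1
  field_simp
  rw [Real.sq_sqrt ht.1.le]

theorem lim1 {F : ℝ → ℂ} {K : ℝ} (h : ∀ t ∈ II, ‖F t‖ ≤ K * (1 - t) / (√t * √(1 - t))) :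
    Tendsto F (𝓝[<] 1) (𝓝 0) := by
  have h1 := lim0 (F := fun t => F (1 - t)) (K := K) fun t ht => by
    simpa [mul_comm] using h _ (II_sub ht)
  have h2 : Tendsto (fun t : ℝ => 1 - t) (𝓝[<] 1) (𝓝[>] 0) :=
    tendsto_nhdsWithin_iff.2 ⟨by
      simpa using ((continuous_const.sub continuous_id).tendsto (1 : ℝ) (f := fun t : ℝ => 1 - t)
        ).mono_left nhdsWithin_le_nhds, ev1.mono fun t ht => (II_sub ht).1⟩
  simpa [Function.comp_def] using h1.comp h2

theorem PP2_bound (v w : ℕ) : ∃ K : ℝ, 0 ≤ K ∧ ∀ t ∈ II,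
    ‖PP2 v w t‖ ≤ K / (√t * √(1 - t)) ∧ (w ≠ 0 → ‖PP2 v w t‖ ≤ K * t / (√t * √(1 - t))) ∧
      (v ≠ 0 → ‖PP2 v w t‖ ≤ K * (1 - t) / (√t * √(1 - t))) := by
  obtain ⟨C, hC, h1⟩ := gg_bound v
  obtain ⟨C', hC', h2⟩ := gg_bound w
  refine ⟨C * C', by positivity, fun t ht => ?_⟩
  have h3 := h1 _ (II_sub ht)
  have h4 := h2 _ ht
  have h5 := (II_sub ht).1
  rw [sub_sub_cancel] at h3
  rw [PP2, norm_mul]
  refine ⟨(mul_le_mul h3.1 h4.1 (norm_nonneg _) (by positivity)).trans_eq (by ring),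
    fun h => (mul_le_mul h3.1 (h4.2 h) (norm_nonneg _) (by positivity)).trans_eq (by ring),
    fun h => (mul_le_mul (h3.2 h) h4.1 (norm_nonneg _) (by positivity)).trans_eq (by ring)⟩

end Pool.Agent.Lib.MP_12eca1_ag.MZ
end

-- part Pool.Agent.Lib.MP_12eca1_ag.Z.Mom
section

/-! The moments of `Li_v (1 - t) Li_w (t)` are linear forms in multiple zeta values. -/

namespace Pool.Agent.Lib.MP_12eca1_ag.MZ

open Set Filter Topology Module Pool.Agent.Lib.MP_dda4e9_nt Pool.Agent.Lib.MP_dda4e9_nt.LB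

/-- the span of the multiple zeta values of weight `j` -/
noncomputable def ZZ (j : ℕ) : Submodule ℚ ℂ :=
  Submodule.span ℚ {z | ∃ u : ℕ, u ≠ 0 ∧ u % 2 = 0 ∧ u.size = j ∧ z = zv u}

theorem word (v : ℕ) : ∀ w : ℕ, w ≠ 0 → v ≠ 0 ∨ w % 2 = 0 → ∃ y ∈ ZZ (v.size + w.size),
    Pr (fun t => kap w t * PP2 v (w / 2) t / (t * (1 - t))) y := by
  induction v using Nat.strong_induction_on with
  | _ v ih =>
  intro w hw h
  by_cases hv : v = 0
  · have h2 : w % 2 = 0 := h.resolve_left (by simp [hv])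
    refine ⟨zv w, Submodule.subset_span ⟨w, hw, h2, by simp [hv], rfl⟩, gg w, 0,
      fun t ht => (gg_der w ht).congr_deriv (by simp [PP2, hv, gg_nil]), gg_lim hw, ?_⟩
    simpa using gg_lim1 hw h2
  have e0 : 2 * w + (v + 1) % 2 ≠ 0 := by omega
  have e1 : (2 * w + (v + 1) % 2) / 2 = w := by omega
  obtain ⟨y, h1, h2⟩ := ih (v / 2) (by omega) (2 * w + (v + 1) % 2) e0 (by omega)
  obtain ⟨K, -, h3⟩ := PP2_bound v w
  have h4 : Pr _ 0 := ⟨PP2 v w, 0, fun t ht => PP2_der v w ht, lim0 fun t ht => (h3 t ht).2.1 hw,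
    by simpa using lim1 fun t ht => (h3 t ht).2.2 hv⟩
  refine ⟨y, ?_, (h4.add h2).congr (fun t _ => ?_) (by ring)⟩
  · rwa [size_half e0, e1, add_comm w.size, ← add_assoc, ← size_half hv] at h1
  · have : kap (2 * w + (v + 1) % 2) t = kap (sw v) t := by
      rw [kap, kap, sw, if_neg hv, if_neg e0, if_neg v.succ_ne_zero,
        show (2 * w + (v + 1) % 2) % 2 = (v + 1) % 2 by omega]
    rw [e1, this]
    ring

theorem lam_pr (u j : ℕ) {Q : ℝ → ℂ} {m : ℕ → ℂ} (h : u ≠ 0 → ∀ i, Pr (fun t => t ^ i * Q t) (m i)) :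
    Pr (fun t => (t ^ (j + 1) - (u % 2 : ℕ)) * (kap u t * Q t / (t * (1 - t)))) (lam u j 0 m) := by
  unfold lam
  split_ifs with h0 h1
  · simpa [h0, kap] using pr_zero
  · refine (h h0 j).congr (fun t ht => ?_) rfl
    have := ne0 ht
    have := ne1 ht
    rw [kap_even h0 h1, h1, Nat.cast_zero]
    field_simp
    ring
  · refine (pr_zero.sub (Pr.sum _ (h h0))).congr (fun t ht => ?_) rfl
    have := ne0 ht
    have := ne1 ht
    rw [kap_odd h1, show u % 2 = 1 by omega, ← Finset.sum_mul, ← neg_sub,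
      Nat.cast_one, ← mul_neg_geom_sum]
    field_simp
    simp

theorem step (v w : ℕ) : ∃ c : ℂ, (v = 0 ∧ w = 0 → c = 1) ∧
    (v ≠ 0 ∨ w ≠ 0 → c ∈ ZZ (v.size + w.size)) ∧ ∀ (j : ℕ) (m1 m2 : ℕ → ℂ),
      (v ≠ 0 → ∀ i, Pr (fun t => t ^ i * PP2 (v / 2) w t) (m1 i)) →
      (w ≠ 0 → ∀ i, Pr (fun t => t ^ i * PP2 v (w / 2) t) (m2 i)) →
      Pr (fun t => (j + 1) * (t ^ j * PP2 v w t)) (c + lam (sw v) j 0 m1 - lam w j 0 m2) := by
  set e : ℂ := if v = 0 then 1 else 0 with he
  obtain ⟨y1, p1, p2, p3⟩ : ∃ y ∈ ZZ (v.size + w.size), (v = 0 → y = 0) ∧ Pr (fun t =>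
      ((sw v % 2 : ℕ) - e) * (kap (sw v) t * PP2 (v / 2) w t / (t * (1 - t)))) y := by
    by_cases hv : v = 0
    · exact ⟨0, zero_mem _, fun _ => rfl, by simpa [hv, sw, kap] using pr_zero⟩
    by_cases h2 : v % 2 = 0
    · obtain ⟨y, h3, h4⟩ := word (v / 2) (2 * w + 1) (by omega) (by omega)
      have e1 : (2 * w + 1) / 2 = w := by omega
      refine ⟨y, ?_, fun h => absurd h hv, h4.congr (fun t _ => ?_) rfl⟩
      · rwa [size_half (u := 2 * w + 1) (by omega), e1, add_comm w.size, ← add_assoc,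
          ← size_half hv] at h3
      · rw [e1, he, sw, if_neg hv, if_neg hv, kap_odd (by omega), kap_odd (by omega),
          show (v + 1) % 2 = 1 by omega]
        simp
    · exact ⟨0, zero_mem _, fun _ => rfl, by
        simpa [he, hv, sw, show (v + 1) % 2 = 0 by omega] using pr_zero⟩
  obtain ⟨y2, q1, q2, q3⟩ : ∃ y ∈ ZZ (v.size + w.size), (w = 0 → y = 0) ∧ Pr (fun t =>
      ((w % 2 : ℕ) - e) * (kap w t * PP2 v (w / 2) t / (t * (1 - t)))) y := by
    by_cases hw : w = 0
    · exact ⟨0, zero_mem _, fun _ => rfl, by simpa [hw, kap] using pr_zero⟩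
    by_cases h : v ≠ 0 ∨ w % 2 = 0
    · obtain ⟨y, h3, h4⟩ := word v w hw h
      refine ⟨_, ?_, fun h => absurd h hw, h4.cmul _⟩
      have : ((w % 2 : ℕ) - e) * y = (((w % 2 : ℕ) : ℚ) - if v = 0 then 1 else 0) • y := by
        rw [he, Rat.smul_def]
        split_ifs <;> simp
      exact this ▸ Submodule.smul_mem _ _ h3
    · push Not at h
      exact ⟨0, zero_mem _, fun _ => rfl, by
        simpa [he, h.1, show w % 2 = 1 by omega] using pr_zero⟩
  refine ⟨(if v = 0 ∧ w = 0 then 1 else 0) + y1 - y2, fun h => by simp [h, p2 h.1, q2 h.2],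
    fun h => ?_, fun j m1 m2 h1 h2 => ?_⟩
  · rw [if_neg (by tauto), zero_add]
    exact sub_mem p1 q1
  obtain ⟨K, hK, h3⟩ := PP2_bound v w
  have hn : ∀ t ∈ II, ‖(t : ℂ) ^ (j + 1)‖ ≤ t := fun t ht => by
    rw [norm_pow, Complex.norm_real, Real.norm_of_nonneg ht.1.le, pow_succ]
    exact mul_le_of_le_one_left ht.1.le (pow_le_one₀ ht.1.le ht.2.le)
  have h4 : Pr _ (if v = 0 ∧ w = 0 then 1 else 0) :=
    ⟨fun t => ((t : ℂ) ^ (j + 1) - e) * PP2 v w t, -(if v = 0 ∧ w = 0 then 1 else 0),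
      fun t ht => (((hasDerivAt_pow (j + 1) (t : ℂ)).comp_ofReal).sub_const e).mul
        (PP2_der v w ht), by
      have a1 := lim0 (F := fun t => (t : ℂ) ^ (j + 1) * PP2 v w t) (K := K) fun t ht => by
        rw [norm_mul]
        exact (mul_le_mul (hn t ht) (h3 t ht).1 (norm_nonneg _) ht.1.le).trans_eq (by ring)
      have a2 : Tendsto (fun t => e * PP2 v w t) (𝓝[>] 0) (𝓝 (if v = 0 ∧ w = 0 then 1 else 0)) := by
        by_cases hw : w = 0
        · by_cases hv : v = 0
          · simp [he, hv, hw, PP2, gg_nil]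
          · simp [he, hv]
        · simpa [hw] using (lim0 fun t ht => (h3 t ht).2.1 hw).const_mul e
      simpa [sub_mul] using a1.sub a2, by
      rw [neg_add_cancel]
      by_cases hv : v = 0
      · refine lim1 (K := (j + 1) * K) fun t ht => ?_
        have a1 : ‖(t : ℂ) ^ (j + 1) - e‖ ≤ (j + 1) * (1 - t) := by
          rw [he, if_pos hv, norm_sub_rev, ← mul_neg_geom_sum, norm_mul, mul_comm]
          refine mul_le_mul ((norm_sum_le _ _).trans ((Finset.sum_le_card_nsmul _ _ 1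
            fun i _ => ?_).trans (by simp))) (le_of_eq ?_) (norm_nonneg _) (by positivity)
          · rw [norm_pow, Complex.norm_real, Real.norm_of_nonneg ht.1.le]
            exact pow_le_one₀ ht.1.le ht.2.le
          · rw [← Real.norm_of_nonneg (II_sub ht).1.le, ← Complex.norm_real]
            simp
        have := (II_sub ht).1
        rw [norm_mul]
        exact (mul_le_mul a1 (h3 t ht).1 (norm_nonneg _) (by positivity)).trans_eq (by ring)
      · refine lim1 (K := K) fun t ht => ?_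
        rw [he, if_neg hv, sub_zero, norm_mul]
        exact (mul_le_of_le_one_left (norm_nonneg _) ((hn t ht).trans ht.2.le)).trans
          ((h3 t ht).2.2 hv)⟩
  refine ((((h4.add (lam_pr (sw v) j fun h => h1 fun e => h (by simp [sw, e]))).add p3).sub
    (lam_pr w j h2)).sub q3).congr (fun t _ => ?_) (by ring)
  simp only [Nat.add_sub_cancel]
  push_cast
  ring

theorem exists_mom : ∃ (c : ℕ → ℕ → ℂ) (m : ℕ → ℕ → ℕ → ℂ), RecZ c m ∧ c 0 0 = 1 ∧
    (∀ v w, v ≠ 0 ∨ w ≠ 0 → c v w ∈ ZZ (v.size + w.size)) ∧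
      ∀ j v w, Pr (fun t => t ^ j * PP2 v w t) (m j v w) := by
  choose c h1 h2 h3 using step
  have h4 : ∀ s v w, v + w = s → ∀ j : ℕ, ∃ x, Pr (fun t => t ^ j * PP2 v w t) x := fun s => by
    induction s using Nat.strong_induction_on with
    | _ s ih =>
    intro v w hs j
    have a1 : ∀ i : ℕ, ∃ x, v ≠ 0 → Pr (fun t => t ^ i * PP2 (v / 2) w t) x := fun i => by
      by_cases hv : v = 0
      · exact ⟨0, fun h => absurd hv h⟩
      · exact (ih _ (by omega) (v / 2) w rfl i).imp fun _ h _ => h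
    have a2 : ∀ i : ℕ, ∃ x, w ≠ 0 → Pr (fun t => t ^ i * PP2 v (w / 2) t) x := fun i => by
      by_cases hw : w = 0
      · exact ⟨0, fun h => absurd hw h⟩
      · exact (ih _ (by omega) v (w / 2) rfl i).imp fun _ h _ => h
    choose m1 a1 using a1
    choose m2 a2 using a2
    have a3 : (j : ℂ) + 1 ≠ 0 := by exact_mod_cast j.succ_ne_zero
    exact ⟨_, ((h3 v w j m1 m2 (fun h i => a1 i h) fun h i => a2 i h).cmul ((j : ℂ) + 1)⁻¹).congr
      (fun t _ => (inv_mul_cancel_left₀ a3 _).symm) rfl⟩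
  choose m h4 using fun j v w => h4 _ v w rfl j
  exact ⟨c, m, fun j v w => ((h4 j v w).cmul _).uniq
    (h3 v w j _ _ (fun _ i => h4 i _ _) fun _ i => h4 i _ _), h1 0 0 ⟨rfl, rfl⟩, h2, h4⟩

theorem df_pr {Q : ℝ → ℂ} {m : ℕ → ℂ} (h : ∀ i, Pr (fun t => t ^ i * Q t) (m i)) (j : ℕ) :
    ∀ i, Pr (fun t => (1 - t) ^ j * t ^ i * Q t) (df m j i) := by
  induction j with
  | zero => exact fun i => (h i).congr (fun t _ => by ring) rfl
  | succ j ih => exact fun i => ((ih i).sub (ih (i + 1))).congr (fun t _ => by ring) rfl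

theorem FF_pr {k : ℕ} (hk : k ≠ 0) {b : ℂ → ℂ} (h : b ∈ FF k) :
    ∃ y ∈ ZZ (k + 1), Pr (fun t => (1 - t) * b t / (t * (1 - t))) y := by
  induction h using Submodule.span_induction with
  | mem f hf =>
    obtain ⟨u, rfl, rfl⟩ := hf
    have h0 : u ≠ 0 := fun e => hk (by simp [e])
    have e1 : 2 * u / 2 = u := by omega
    obtain ⟨y, h1, h2⟩ := word 0 (2 * u) (by omega) (by omega)
    refine ⟨y, ?_, h2.congr (fun t _ => ?_) rfl⟩
    · rwa [size_half (u := 2 * u) (by omega), e1, Nat.size_zero, zero_add] at h1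
    · rw [kap_even (by omega) (by omega), e1, PP2, gg_nil, one_mul, gg]
  | zero => exact ⟨0, zero_mem _, by simpa using pr_zero⟩
  | add f g _ _ hf hg =>
    obtain ⟨y, h1, h2⟩ := hf
    obtain ⟨y', h3, h4⟩ := hg
    exact ⟨_, add_mem h1 h3, (h2.add h4).congr (fun t _ => by simp only [Pi.add_apply]; ring) rfl⟩
  | smul q f _ hf =>
    obtain ⟨y, h1, h2⟩ := hf
    exact ⟨_, Submodule.smul_mem _ q h1, (h2.cmul q).congr
      (fun t _ => by simp only [Pi.smul_apply, Rat.smul_def]; ring) (Rat.smul_def _ _)⟩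

theorem ZZ_mul {j : ℕ} {z : ℂ} (h : z ∈ ZZ j) {u : ℕ} (hu : u ≠ 0) (hu2 : u % 2 = 0) :
    z * zv u ∈ ZZ (j + u.size) := by
  induction h using Submodule.span_induction with
  | mem f hf =>
    obtain ⟨v, hv, hv2, rfl, rfl⟩ := hf
    have e1 := size_half hv
    have e2 := size_half hu
    obtain ⟨b1, h1, h2⟩ := prod_mem _ (v / 2) u rfl
    obtain ⟨b2, h3, h4⟩ := prod_mem _ v (u / 2) rfl
    obtain ⟨y1, h5, h6⟩ := FF_pr (by omega) h1
    obtain ⟨y2, h7, h8⟩ := FF_pr (by omega) h3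
    have h9 : Pr _ (zv v * zv u) := ⟨fun t => gg v t * gg u t, 0,
      fun t ht => (gg_der v ht).mul (gg_der u ht), by simpa using (gg_lim hv).mul (gg_lim hu),
      by simpa using (gg_lim1 hv hv2).mul (gg_lim1 hu hu2)⟩
    rw [h9.uniq ((h6.add h8).congr (fun t ht => ?_) rfl)]
    · exact add_mem (by rwa [show v.size + u.size = (v / 2).size + u.size + 1 by omega])
        (by rwa [show v.size + u.size = v.size + (u / 2).size + 1 by omega])
    · rw [← h2 _ (mem_Om ht.1.le ht.2), ← h4 _ (mem_Om ht.1.le ht.2), kap_even hv hv2,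
        kap_even hu hu2]
      simp only [xx, gg]
      ring
  | zero => simp
  | add f g _ _ hf hg => rw [add_mul]; exact add_mem hf hg
  | smul q f _ hf => rw [smul_mul_assoc]; exact Submodule.smul_mem _ q hf

instance (j : ℕ) : FiniteDimensional ℚ (ZZ j) :=
  FiniteDimensional.span_of_finite ℚ (((Set.finite_lt_nat (2 ^ j)).image zv).subset
    fun _ ⟨u, _, _, h1, h2⟩ => ⟨u, Nat.size_le.1 h1.le, h2.symm⟩)

theorem zv_ne {u a : ℕ} (h : u ≠ 0) (h2 : u % 2 = 0) (e : idx u = [a]) : zv u ≠ 0 := by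
  have := (co_summable h h2).tsum_pos (fun r => (co_bound _ r).1) 1 (by simp [e, co])
  rw [zv]
  exact_mod_cast this.ne'

theorem idx_two : idx 2 = [2] := by simp [idx]

theorem idx_four : idx 4 = [3] := by simp [idx]

theorem ZZ_le (j : ℕ) {u : ℕ} (h : u ≠ 0) (h2 : u % 2 = 0) (h3 : zv u ≠ 0) :
    finrank ℚ (ZZ j) ≤ finrank ℚ (ZZ (j + u.size)) :=
  LinearMap.finrank_le_finrank_of_injective
    (f := (LinearMap.mulRight ℚ (zv u)).restrict fun _ hz => ZZ_mul (j := j) hz h h2)
    fun _ _ e => Subtype.ext (mul_right_cancel₀ h3 (congrArg Subtype.val e))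

theorem ZZ_mono (j k : ℕ) : finrank ℚ (ZZ j) ≤ finrank ℚ (ZZ (j + 2 + k)) := by
  have h2 := fun j => ZZ_le j two_ne_zero rfl (zv_ne two_ne_zero rfl idx_two)
  have h3 := ZZ_le j four_ne_zero rfl (zv_ne four_ne_zero rfl idx_four)
  induction k using Nat.twoStepInduction with
  | zero => exact h2 j
  | one => exact h3
  | more k ih _ => exact ih.trans (h2 _)

theorem ZZ_pos {w : ℕ} (hw : 2 ≤ w) : 1 ≤ finrank ℚ (ZZ w) := by
  have h : ∀ u a, u ≠ 0 → u % 2 = 0 → idx u = [a] → 1 ≤ finrank ℚ (ZZ u.size) :=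
    fun u a h1 h2 h3 => Submodule.one_le_finrank_iff.2 fun e => by
      have : zv u ∈ ZZ u.size := Submodule.subset_span ⟨u, h1, h2, rfl, rfl⟩
      exact zv_ne h1 h2 h3 (by simpa [e] using this)
  have h2 := h 2 2 two_ne_zero rfl idx_two
  rcases (show w = 2 ∨ w = 3 ∨ w = 2 + 2 + (w - 4) by omega) with rfl | rfl | e
  exacts [h2, h 4 3 four_ne_zero rfl idx_four, e ▸ h2.trans (ZZ_mono _ _)]

theorem span_dim2 {δ : ℕ} (W : ℕ) (h : ∀ j < W, finrank ℚ (ZZ j) ≤ δ) :
    ∃ E : Submodule ℚ ℂ, FiniteDimensional ℚ E ∧ finrank ℚ E ≤ W * δ + 1 ∧ (1 : ℂ) ∈ E ∧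
      ∀ j < W, ZZ j ≤ E := by
  induction W with
  | zero =>
    exact ⟨Submodule.span ℚ {1}, inferInstance, by simp [finrank_span_singleton],
      Submodule.mem_span_singleton_self _, by simp⟩
  | succ W ih =>
    obtain ⟨E, h1, h2, h3, h4⟩ := ih fun j hj => h j (by omega)
    refine ⟨E ⊔ ZZ W, inferInstance, (Submodule.finrank_add_le_finrank_add_finrank _ _).trans
      (by have := h W W.lt_succ_self; rw [Nat.succ_mul]; omega), Submodule.mem_sup_left h3,
      fun j hj => ?_⟩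
    rcases (Nat.le_of_lt_succ hj).eq_or_lt with rfl | hj
    exacts [le_sup_right, (h4 j hj).trans le_sup_left]

end Pool.Agent.Lib.MP_12eca1_ag.MZ
end
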